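import Pool.Agent.H.MP_2e5000_an.A

namespace Pool.Agent.Results.MP_2e5000_an.Yes

open MeasureTheory Set Function Filter Topology Pool.Agent.H.MP_2e5000_an

lemma ces {a : ℕ → ℝ} (h0 : ∀ n, 0 ≤ a n) (h1 : ∀ n, a n ≤ 1)
    (h : ∀ ε > 0, ∃ N k : ℕ, 0 < N ∧ ∀ j, ∑ n ∈ Finset.range N, a (k + (j + n)) ≤ N * ε) :
    Tendsto (fun N : ℕ => (∑ n ∈ Finset.range N, a n) / N) atTop (𝓝 0) := by
  refine tendsto_order.2 ⟨fun ε hε => .of_forall fun N => hε.trans_le (div_nonneg (Finset.sum_nonneg fun n _ => h0 n)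
    N.cast_nonneg), fun ε hε => ?_⟩
  obtain ⟨N, k, hN, h⟩ := h (ε / 2) (half_pos hε)
  have h2 : ∀ q, ∑ n ∈ Finset.range (k + N * q), a n ≤ k + N * q * (ε / 2) := fun q => by
    induction q with
    | zero => simpa using Finset.sum_le_card_nsmul (Finset.range k) a 1 fun n _ => h1 n
    | succ q ih =>
      rw [mul_add, mul_one, ← add_assoc, Finset.sum_range_add]
      simp only [add_assoc]
      push_cast
      linarith [h (N * q)]
  filter_upwards [(tendsto_const_div_atTop_nhds_zero_nat (k + N * (ε / 2) : ℝ)).eventually_lt_const (half_pos hε),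
    eventually_gt_atTop 0] with M h3 h4
  have h5 : (0 : ℝ) < M := by exact_mod_cast h4
  have h6 : ((N * (M / N) : ℕ) : ℝ) ≤ M := by exact_mod_cast Nat.mul_div_le M N
  have h7 := (Finset.sum_le_sum_of_subset_of_nonneg (Finset.range_mono ((Nat.lt_mul_div_succ M hN).le.trans
    (Nat.le_add_left _ k))) fun n _ _ => h0 n).trans (h2 _)
  rw [div_lt_iff₀ h5] at h3 ⊢
  push_cast at h6 h7
  nlinarith

lemma block (μ : Measure (ℤ → Bool)) [IsProbabilityMeasure μ] (hμ : μ.map σ = μ) {A C : Set (ℤ → Bool)}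
    (hA : MeasurableSet A) (hC : MeasurableSet C) {N : ℕ} (hN : 0 < N) {δ : ℝ} (hδ : 0 < δ)
    (h : ∑ n ∈ Finset.range N, |μ.real (C ∩ σ^[n] ⁻¹' C) - μ.real C * μ.real C| ≤ N * δ ^ 2) (j : ℕ) :
    ∑ n ∈ Finset.range N, |μ.real (A ∩ σ^[j + n] ⁻¹' C) - μ.real A * μ.real C| ≤ N * (2 * δ) := by
  have hm := fun n => σ_cont.measurable.iterate n hC
  obtain ⟨f, hf⟩ : ∃ f : ℕ → (ℤ → Bool) → ℝ, ∀ n, f n = fun x => (σ^[n] ⁻¹' C).indicator 1 x - μ.real C := ⟨_, fun _ => rfl⟩
  have i1 : ∀ (ν : Measure (ℤ → Bool)) [IsFiniteMeasure ν] S, MeasurableSet S → Integrable (S.indicator (1 : (ℤ → Bool) → ℝ)) ν :=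
    fun ν _ S hS => (integrable_const (1 : ℝ)).indicator hS
  have i2 : ∀ n, MemLp (f n) 2 μ := fun n => by
    rw [hf]
    exact ((memLp_const (1 : ℝ)).indicator (hm n)).sub (memLp_const _)
  have e1 : ∀ n, μ.real (A ∩ σ^[n] ⁻¹' C) - μ.real A * μ.real C = ∫ x in A, f n x ∂μ := fun n => by
    rw [hf, integral_sub (i1 _ _ (hm n)) (integrable_const _), integral_indicator_one (hm n), measureReal_restrict_apply (hm n),
      inter_comm]
    simp
  have e2 : ∀ n m, ∫ x, f (n + m) x * f n x ∂μ = μ.real (C ∩ σ^[m] ⁻¹' C) - μ.real C * μ.real C := fun n m => by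
    have : ∀ x, f (n + m) x * f n x = (σ^[n] ⁻¹' (C ∩ σ^[m] ⁻¹' C)).indicator 1 x - μ.real C * (σ^[n] ⁻¹' C).indicator 1 x -
        μ.real C * f (n + m) x := fun x => by
      by_cases a : σ^[n] x ∈ C <;> by_cases b : σ^[m] (σ^[n] x) ∈ C <;>
        simp [hf, indicator, add_comm n, iterate_add_apply, a, b] <;> ring
    have h3 := σ_cont.measurable.iterate n (hC.inter (hm m))
    simp only [this]
    rw [integral_sub ((i1 _ _ h3).sub' ((i1 _ _ (hm n)).const_mul _)) (((i2 _).integrable one_le_two).const_mul _),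
      integral_sub (i1 _ _ h3) ((i1 _ _ (hm n)).const_mul _), integral_const_mul, integral_const_mul, hf,
      integral_sub (i1 _ _ (hm _)) (integrable_const _), integral_indicator_one h3, integral_indicator_one (hm _),
      integral_indicator_one (hm _), inv_it hμ hC, inv_it hμ hC, inv_it hμ (hC.inter (hm m))]
    simp
  have e3 : ∀ n, ∑ m ∈ Finset.range N, (if n ≤ m then |∫ x, f (j + m) x * f (j + n) x ∂μ| else 0) ≤ N * δ ^ 2 := fun n => by
    rw [← Finset.sum_filter, show (Finset.range N).filter (n ≤ ·) = Finset.Ico n N by ext; simp [and_comm],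
      Finset.sum_Ico_eq_sum_range]
    simp only [← add_assoc, e2]
    exact (Finset.sum_le_sum_of_subset_of_nonneg (Finset.range_mono (N.sub_le n)) fun _ _ _ => abs_nonneg _).trans h
  obtain ⟨s, hs'⟩ : ∃ s : ℕ → ℝ, ∀ n, s n = SignType.sign (∫ x in A, f (j + n) x ∂μ) := ⟨_, fun _ => rfl⟩
  have i3 : MemLp (fun x => ∑ n ∈ Finset.range N, s n * f (j + n) x) 2 μ :=
    memLp_finsetSum _ fun n _ => (i2 _).const_mul _
  have e4 : ∫ x, (∑ n ∈ Finset.range N, s n * f (j + n) x) ^ 2 ∂μ ≤ 2 * (N * (N * δ ^ 2)) := by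
    simp only [sq (∑ _ ∈ _, _), Finset.sum_mul_sum, mul_mul_mul_comm (s _)]
    have i4 : ∀ n m, Integrable (fun x => s n * s m * (f (j + n) x * f (j + m) x)) μ := fun n m =>
      ((i2 (j + n)).integrable_mul (i2 (j + m))).const_mul (s n * s m)
    rw [integral_finsetSum _ fun n _ => integrable_finsetSum _ fun m _ => i4 n m]
    refine (Finset.sum_le_sum fun n _ => (integral_finsetSum _ fun m _ => i4 n m).trans_le (Finset.sum_le_sum
      (g := fun m => (if n ≤ m then |∫ x, f (j + m) x * f (j + n) x ∂μ| else 0) +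
        if m ≤ n then |∫ x, f (j + n) x * f (j + m) x ∂μ| else 0) fun m _ => ?_)).trans ?_
    · have hs : ∀ n, |s n| ≤ 1 := fun n => by
        rw [hs']
        cases SignType.sign (∫ x in A, f (j + n) x ∂μ) <;> simp
      rw [integral_const_mul]
      refine (le_abs_self _).trans ((abs_mul _ _).trans_le ((mul_le_of_le_one_left (abs_nonneg _) ((abs_mul _ _).trans_le
        (mul_le_one₀ (hs n) (abs_nonneg _) (hs m)))).trans ?_))
      simp only [mul_comm (f (j + m) _), Pi.mul_apply]
      split_ifs with a b b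
      · exact le_add_of_nonneg_left (abs_nonneg _)
      · simp
      · simp
      · omega
    · simp only [Finset.sum_add_distrib]
      rw [two_mul, ← nsmul_eq_mul]
      exact add_le_add ((Finset.sum_le_card_nsmul _ _ _ fun n _ => e3 n).trans_eq (by rw [Finset.card_range]))
        (Finset.sum_comm.trans_le ((Finset.sum_le_card_nsmul _ _ _ fun n _ => e3 n).trans_eq (by rw [Finset.card_range])))
  have hN' : (0 : ℝ) < N * δ := by positivity
  simp only [e1, ← sign_mul_self, ← hs', ← integral_const_mul]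
  rw [← integral_finsetSum _ fun n _ => (((i2 _).integrable one_le_two).const_mul _).restrict]
  obtain ⟨g, hg⟩ : ∃ g : (ℤ → Bool) → ℝ, g = fun x => ∑ n ∈ Finset.range N, s n * f (j + n) x := ⟨_, rfl⟩
  simp only [← congrFun hg] at e4 i3 ⊢
  have i4 : Integrable (fun x => g x ^ 2 / (2 * (N * δ))) μ := i3.integrable_sq.div_const _
  have i5 : Integrable (fun x => g x ^ 2 / (2 * (N * δ)) + N * δ / 2) μ := i4.add (integrable_const _)
  have h1 : ∫ x in A, g x ∂μ ≤ ∫ x in A, (g x ^ 2 / (2 * (N * δ)) + N * δ / 2) ∂μ :=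
    integral_mono (i3.integrable one_le_two).restrict i5.restrict fun x => by
      simp only
      rw [div_add' _ _ _ (by positivity), le_div_iff₀ (by positivity)]
      nlinarith [sq_nonneg (g x - N * δ)]
  have h2 := setIntegral_le_integral (s := A) i5 (.of_forall fun x => by simp only [Pi.zero_apply]; positivity)
  rw [integral_add i4 (integrable_const _), integral_div] at h2
  have : (∫ x, g x ^ 2 ∂μ) / (2 * (N * δ)) ≤ N * δ := by
    rw [div_le_iff₀ (by positivity)]
    linarith
  simp only [integral_const, probReal_univ, one_smul] at h2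
  linarith

lemma wm (μ : Measure (ℤ → Bool)) [IsProbabilityMeasure μ] (hμ : μ.map σ = μ) (h : ∀ W C, Dep W C → ∀ ε > 0, ∃ N : ℕ,
    0 < N ∧ ∑ n ∈ Finset.range N, |μ.real (C ∩ σ^[n] ⁻¹' C) - μ.real C * μ.real C| ≤ N * ε) {A B : Set (ℤ → Bool)}
    (hA : MeasurableSet A) (hB : MeasurableSet B) : Tendsto (fun N : ℕ =>
      (∑ n ∈ Finset.range N, |μ.real (A ∩ σ^[n] ⁻¹' B) - μ.real A * μ.real B|) / N) atTop (𝓝 0) := by
  refine ces (fun _ => abs_nonneg _) (fun n => le1 measureReal_nonneg measureReal_le_one (by positivity)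
    (mul_le_one₀ measureReal_le_one measureReal_nonneg measureReal_le_one)) fun ε hε => ?_
  obtain ⟨C, hC, h1⟩ := (Measure.MeasureDense.of_generateFrom_isSetAlgebra_finite μ isSetAlgebra_measurableCylinders
    generateFrom_measurableCylinders.symm).approx B hB (measure_ne_top _ _) (ε / 4) (by positivity)
  have h2 := MeasurableSet.of_mem_measurableCylinders hC
  obtain ⟨k, hk⟩ : ∃ k, Dep (2 * k + 1) (σ^[k] ⁻¹' C) := by
    obtain ⟨s, S, -, rfl⟩ := (mem_measurableCylinders _).1 hC
    refine ⟨s.sup Int.natAbs, fun x y e hx => ?_⟩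
    rw [mem_preimage, mem_cylinder] at hx ⊢
    convert hx using 1
    funext i
    have := Finset.le_sup (f := Int.natAbs) i.2
    obtain ⟨n, hn⟩ : ∃ n : ℕ, i.1 + (s.sup Int.natAbs : ℕ) = (n : ℤ) := ⟨_, (Int.toNat_of_nonneg (by omega)).symm⟩
    simp only [Finset.restrict, σ_it, hn]
    exact (e n (by omega)).symm
  obtain ⟨N, hN, h3⟩ := h _ _ hk ((ε / 4) ^ 2) (by positivity)
  refine ⟨N, k, hN, fun j => ?_⟩
  have h4 := block μ hμ hA hk.clopen.isOpen.measurableSet hN (by positivity) h3 j
  have h5 : μ.real (symmDiff B C) ≤ ε / 4 := ENNReal.toReal_le_of_le_ofReal (by positivity) h1.le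
  refine (Finset.sum_le_sum (g := fun n => |μ.real (A ∩ σ^[j + n] ⁻¹' (σ^[k] ⁻¹' C)) - μ.real A * μ.real (σ^[k] ⁻¹' C)| +
    ε / 2) fun n _ => ?_).trans (by simp only [Finset.sum_add_distrib, Finset.sum_const, Finset.card_range, nsmul_eq_mul]
                                    linarith)
  have hm := σ_cont.measurable.iterate (k + (j + n))
  have h6 := (abs_measureReal_sub_le_measureReal_symmDiff (μ := μ) (hA.inter (hm hB)).nullMeasurableSet
    (hA.inter (hm h2)).nullMeasurableSet).trans ((measureReal_mono (s₂ := σ^[k + (j + n)] ⁻¹' (symmDiff B C))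
      (by rw [← inter_symmDiff_distrib_left, preimage_symmDiff]; exact inter_subset_right)).trans_eq
      (inv_it hμ (hB.symmDiff h2) _))
  have h7 := abs_le.1 ((abs_measureReal_sub_le_measureReal_symmDiff hB.nullMeasurableSet h2.nullMeasurableSet).trans h5)
  rw [← preimage_comp, ← iterate_add, inv_it hμ h2]
  have h8 : 0 ≤ μ.real A := measureReal_nonneg
  have h9 : μ.real A ≤ 1 := measureReal_le_one
  have := abs_le.1 (h6.trans h5)
  have h10 := le_abs_self (μ.real (A ∩ σ^[k + (j + n)] ⁻¹' C) - μ.real A * μ.real C)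
  have h11 := neg_abs_le (μ.real (A ∩ σ^[k + (j + n)] ⁻¹' C) - μ.real A * μ.real C)
  exact abs_le.2 ⟨by nlinarith, by nlinarith⟩

theorem result : ∃ μ : ProbabilityMeasure (ℤ → Bool), (μ : Measure (ℤ → Bool)).map σ = μ ∧
    (∀ A B, MeasurableSet A → MeasurableSet B → Tendsto (fun N : ℕ => (∑ n ∈ Finset.range N,
      |(μ : Measure (ℤ → Bool)).real (A ∩ σ^[n] ⁻¹' B) - (μ : Measure (ℤ → Bool)).real A *
        (μ : Measure (ℤ → Bool)).real B|) / N) atTop (𝓝 0)) ∧
    (∀ x, μ ≠ diracProba x) ∧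
    Tendsto (fun n => μ.map (F_cont.measurable.iterate n).aemeasurable) atTop (𝓝 (diracProba fun _ => false)) := by
  have h0 := fun (p : {μ : ProbabilityMeasure (ℤ → Bool) // (μ : Measure (ℤ → Bool)).map σ = μ} × ℕ) (j : ℕ) =>
    step p.1.2 p.2 (show 0 < (1 / 2 : ℝ) ^ j / 8 by positivity)
  choose ν h1 N h2 h3 h4 h5 h6 using h0
  let u : ℕ → {μ : ProbabilityMeasure (ℤ → Bool) // (μ : Measure (ℤ → Bool)).map σ = μ} × ℕ := fun j => j.rec
    (⟨⟨avg 2 fun i => .dirac fun _ => decide (i = 0), inferInstance⟩, by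
      simp [avg, Finset.sum_range_succ, Measure.map_add _ _ σ_cont.measurable]; rfl⟩, 1)
    fun j p => (⟨⟨ν p j, h1 p j⟩, h2 p j⟩, p.2 + N p j)
  have hW : StrictMono fun j => (u j).2 := strictMono_nat_of_lt_succ fun j => lt_add_of_pos_right _ (h3 _ j)
  obtain ⟨μ, -, hμ⟩ := isCompact_univ.ultrafilter_le_nhds ((hyperfilter ℕ).map fun j => (u j).1.1) (by simp)
  replace hμ : Tendsto (fun j => (u j).1.1) (hyperfilter ℕ) (𝓝 μ) := hμ
  have k1 : ∀ W A, Dep W A → ∀ (c : ℝ) j, (∀ i, j ≤ i → c * ((u (i + 1)).1.1 : Measure _).real A ≤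
      c * ((u i).1.1 : Measure _).real A + (1 / 2) ^ i / 8) →
      c * (μ : Measure _).real A ≤ c * ((u j).1.1 : Measure _).real A + (1 / 2) ^ j / 4 := fun W A hA c j h => by
    refine le_of_tendsto ((NNReal.tendsto_coe.2 (ProbabilityMeasure.tendsto_measure_of_isClopen_of_tendsto hμ
      hA.clopen)).const_mul c) (((eventually_ge_atTop j).mono fun i hi => ?_).filter_mono Nat.hyperfilter_le_atTop)
    have : c * ((u i).1.1 : Measure _).real A ≤ c * ((u j).1.1 : Measure _).real A + (1 / 2) ^ j / 4 - (1 / 2) ^ i / 4 := by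
      induction i, hi using Nat.le_induction with
      | base => simp
      | succ i hi ih => linarith [h i hi, pow_succ (1 / 2 : ℝ) i]
    exact this.trans (sub_le_self _ (by positivity))
  have k2 : ∀ j A, Dep (u j).2 A → |(μ : Measure _).real A - ((u j).1.1 : Measure _).real A| ≤ (1 / 2) ^ j / 4 :=
    fun j A hA => by
      have a := fun i hi => abs_le.1 (h6 (u i) i A (hA.mono (hW.monotone hi))).1
      have b := k1 _ A hA 1 j fun i hi => by
        have := (a i hi).2
        change 1 * (ν (u i) i).real A ≤ _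
        linarith
      have c := k1 _ A hA (-1) j fun i hi => by
        have := (a i hi).1
        change -1 * (ν (u i) i).real A ≤ _
        linarith
      exact abs_le.2 ⟨by linarith, by linarith⟩
  have k3 : (μ : Measure (ℤ → Bool)).map σ = μ := congrArg ProbabilityMeasure.toMeasure (tendsto_nhds_unique
    (ProbabilityMeasure.tendsto_map_of_tendsto_of_continuous _ _ hμ σ_cont) (hμ.congr fun j => Subtype.ext (u j).1.2.symm))
  have k4 : ∀ ε : ℝ, 0 < ε → ∀ᶠ j : ℕ in atTop, (1 / 2 : ℝ) ^ j < ε := fun ε =>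
    (tendsto_pow_atTop_nhds_zero_of_lt_one (by norm_num) (by norm_num)).eventually_lt_const
  have k5 : Tendsto (fun m => (μ : Measure _).real (G m)) atTop (𝓝 0) := tendsto_order.2
    ⟨fun ε hε => .of_forall fun _ => hε.trans_le measureReal_nonneg, fun ε hε => by
      obtain ⟨j, hj⟩ := (k4 ε hε).exists
      filter_upwards [eventually_ge_atTop (N (u j) j)] with m hm
      have := k1 _ _ (dep_G m) 1 (j + 1) fun i _ => by
        rw [one_mul, one_mul]
        exact h5 (u i) i m
      rw [show ((u (j + 1)).1.1 : Measure _).real (G m) = 0 from h4 (u j) j m hm, pow_succ] at this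
      linarith⟩
  refine ⟨μ, k3, fun A B => wm _ k3 fun W C hC ε hε => ?_, fun x hx => ?_, tendsto_of_forall_isOpen_le_liminf' fun U hU => ?_⟩
  · obtain ⟨j, a, b⟩ := ((k4 ε hε).and (eventually_ge_atTop W)).exists
    replace hC := hC.mono (b.trans (hW.id_le j))
    refine ⟨_, h3 (u j) j, (Finset.sum_le_sum (g := fun n => |(ν (u j) j).real (C ∩ σ^[n] ⁻¹' C) -
      ((u j).1.1 : Measure _).real C * ((u j).1.1 : Measure _).real C| + (1 / 2) ^ j * (7 / 8)) fun n hn => ?_).trans ?_⟩
    · have c := abs_le.1 (k2 (j + 1) _ ((hC.cor n).mono (Nat.add_le_add_left (Finset.mem_range.1 hn).le _)))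
      have d := abs_le.1 (k2 j C hC)
      change _ ≤ _ - (ν (u j) j).real _ ∧ _ - (ν (u j) j).real _ ≤ _ at c
      rw [pow_succ] at c
      have e1 := le_abs_self ((ν (u j) j).real (C ∩ σ^[n] ⁻¹' C) - ((u j).1.1 : Measure _).real C * ((u j).1.1 : Measure _).real C)
      have e2 := neg_abs_le ((ν (u j) j).real (C ∩ σ^[n] ⁻¹' C) - ((u j).1.1 : Measure _).real C * ((u j).1.1 : Measure _).real C)
      have e3 : ∀ π : ProbabilityMeasure (ℤ → Bool), 0 ≤ (π : Measure _).real C ∧ (π : Measure _).real C ≤ 1 :=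
        fun π => ⟨measureReal_nonneg, measureReal_le_one⟩
      exact abs_le.2 ⟨by nlinarith [e3 μ, e3 (u j).1.1], by nlinarith [e3 μ, e3 (u j).1.1]⟩
    · rw [Finset.sum_add_distrib, Finset.sum_const, Finset.card_range, nsmul_eq_mul]
      nlinarith [(h6 (u j) j C hC).2, (N (u j) j).cast_nonneg (α := ℝ)]
  · have := k2 0 (G 0) (dep_G 0)
    rw [show ((u 0).1.1 : Measure _).real (G 0) = 1 / 2 from (avg_real _).trans (by
      simp [Finset.sum_range_succ, Measure.real, G]), hx] at this
    by_cases c : x ∈ G 0 <;> simp [diracProba, Measure.real, c] at this <;> norm_num at this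
  · by_cases c : (fun _ => false) ∈ U
    · obtain ⟨I, v, a, b⟩ := isOpen_pi_iff.1 hU _ c
      have e : Tendsto (fun m => ENNReal.ofReal (1 - I.card * (μ : Measure _).real (G m))) atTop (𝓝 1) := by
        simpa using ENNReal.tendsto_ofReal ((k5.const_mul (I.card : ℝ)).const_sub 1)
      refine prob_le_one.trans (e.liminf_eq.ge.trans (liminf_le_liminf (.of_forall fun m => ?_)))
      have hm := F_cont.measurable.iterate m
      rw [ProbabilityMeasure.toMeasure_map, Measure.map_apply hm hU.measurableSet]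
      refine ENNReal.ofReal_le_of_le_toReal (sub_le_comm.1 ((probReal_compl_eq_one_sub (hm hU.measurableSet)).ge.trans
        ((measureReal_mono (s₂ := ⋃ i ∈ I, {x | F^[m] x i = true}) (fun x hx => ?_) (measure_ne_top _ _)).trans
          ((measureReal_biUnion_finset_le _ _).trans_eq ?_))))
      · by_contra d
        simp only [mem_iUnion, not_exists, mem_ofPred, Bool.not_eq_true] at d
        exact hx (b fun i hi => d i hi ▸ (a i hi).2)
      · have hc : ∀ x, F^[m] (σ x) = σ (F^[m] x) := (show Function.Commute F σ from fun _ => rfl).iterate_left m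
        have : ∀ i : ℤ, (μ : Measure _).real {x | F^[m] x (i + 1) = true} = (μ : Measure _).real {x | F^[m] x i = true} :=
          fun i => by
            rw [← inv_it k3 (A := {x | F^[m] x i = true}) (((measurable_pi_apply i).comp hm) (measurableSet_singleton _)) 1]
            simp [hc, σ]
        rw [Finset.sum_congr rfl (g := fun _ => (μ : Measure _).real (G m)) fun i hi => ?_]
        · simp
        clear hi
        induction i using Int.induction_on with
        | zero => rfl
        | succ i ih => exact (this i).trans ih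
        | pred i ih => rw [← this, sub_add_cancel, ih]
    · simp [diracProba, hU.measurableSet, c]

end Pool.Agent.Results.MP_2e5000_an.Yes
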